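import Pool.Agent.Helper12_AEU.StmtF
import Pool.Agent.Helper8_Fine.Pdk

/-!
AEU (MP_5b0138_an), Part III, module CVT: interchange of the Laplace transform and the integral
over the window (helper15).
-/

namespace Pool.Agent.H60K.H15

open MeasureTheory Complex Filter Topology ProbabilityTheory Pool.Agent.H16Iso Pool.Agent.H62T
  Pool.Agent.H16F Pool.Agent.H38KL
open scoped ENNReal NNReal

theorem Dm_open (u : Fin 3 → ℂ) (h : Fin 3 → ℝ) (B : Finset (Fin 3)) : IsOpen (Dm u h B) := by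
  have e : Dm u h B = ⋂ s ∈ B, {x | ip (u s) x < h s} := by
    unfold Dm
    ext x
    simp
  rw [e]
  refine isOpen_biInter_finset fun s _ => ?_
  refine isOpen_lt ?_ continuous_const
  unfold ip
  fun_prop

theorem kME_meas (u : Fin 3 → ℂ) (h : Fin 3 → ℝ) (M E : Finset (Fin 3)) :
    Measurable fun p : ℝ × ℂ × ℂ => kME u h M E p.1 p.2.1 p.2.2 := by
  unfold kME pB
  refine Finset.measurable_sum _ fun B _ => ?_
  exact (H8.pD_meas (Dm_open u h (E ∪ B))).const_mul _

theorem kME_abs_le (u : Fin 3 → ℂ) (h : Fin 3 → ℝ) (M E : Finset (Fin 3)) {t : ℝ} (ht : 0 < t)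
    (x y : ℂ) : |kME u h M E t x y| ≤ M.powerset.card * G t (x - y) := by
  unfold kME pB
  refine (Finset.abs_sum_le_sum_abs _ _).trans ?_
  have h1 : ∀ B ∈ M.powerset, |(-1 : ℝ) ^ B.card * pD (Dm u h (E ∪ B)) t x y| ≤ G t (x - y) := by
    intro B _
    rw [abs_mul, abs_pow, abs_neg, abs_one, one_pow, one_mul,
      abs_of_nonneg (H8.pD_nonneg (Dm_open u h _) ht x y)]
    exact H8.pD_le (Dm_open u h _) ht x y
  refine (Finset.sum_le_sum h1).trans ?_
  rw [Finset.sum_const, nsmul_eq_mul]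

theorem ch_meas (ξ1 : ℝ) : Measurable (ch ξ1) := by
  unfold ch
  exact Measurable.ite (measurableSet_le measurable_const Complex.measurable_re) measurable_const
    measurable_const

theorem ch_abs (ξ1 : ℝ) (x y : ℂ) : |ch ξ1 y - ch ξ1 x| ≤ 1 := by
  unfold ch
  split_ifs <;> norm_num

theorem Rw_open (ξ1 δ ζ1 ζ2 : ℝ) : IsOpen (Rw ξ1 δ ζ1 ζ2) := by
  have e : Rw ξ1 δ ζ1 ζ2 = {x : ℂ | |x.re - ξ1| < δ} ∩ ({x : ℂ | -ζ2 < x.im} ∩
      {x : ℂ | x.im < ζ1}) := by
    unfold Rw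
    ext x
    simp
  rw [e]
  refine IsOpen.inter (isOpen_lt ?_ continuous_const) (IsOpen.inter
    (isOpen_lt continuous_const ?_) (isOpen_lt ?_ continuous_const))
  · fun_prop
  · fun_prop
  · fun_prop

theorem Rw_finite (ξ1 δ ζ1 ζ2 : ℝ) : volume (Rw ξ1 δ ζ1 ζ2) < ⊤ := by
  have hb : Rw ξ1 δ ζ1 ζ2 ⊆ Metric.closedBall 0 (|ξ1| + δ + (|ζ1| + |ζ2|)) := by
    rintro x ⟨h1, h2, h3⟩
    rw [mem_closedBall_zero_iff]
    refine (Complex.norm_le_abs_re_add_abs_im x).trans ?_
    have a1 : |x.re| ≤ |ξ1| + δ := by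
      have := abs_sub_abs_le_abs_sub x.re ξ1
      linarith
    have a2 : |x.im| ≤ |ζ1| + |ζ2| := by
      rw [abs_le]
      constructor
      · have := le_abs_self ζ2
        have := abs_nonneg ζ1
        linarith
      · have := le_abs_self ζ1
        have := abs_nonneg ζ2
        linarith
    linarith
  exact lt_of_le_of_lt (measure_mono hb) measure_closedBall_lt_top

theorem G_far {t r : ℝ} (ht : 0 < t) (hr : 0 < r) {z : ℂ} (hz : r ≤ ‖z‖) :
    G t z ≤ 1 / (Real.pi * r ^ 2) := by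
  unfold G
  have hpi := Real.pi_pos
  have h1 : Real.exp (-(‖z‖ ^ 2) / (4 * t)) ≤ Real.exp (-(r ^ 2 / (4 * t))) := by
    apply Real.exp_le_exp.2
    rw [neg_div, neg_le_neg_iff]
    exact div_le_div_of_nonneg_right (pow_le_pow_left₀ hr.le hz 2) (by positivity)
  have h2 : Real.exp (-(r ^ 2 / (4 * t))) * (r ^ 2 / (4 * t)) ≤ 1 := by
    have h3 := Real.add_one_le_exp (r ^ 2 / (4 * t))
    rw [Real.exp_neg]
    rw [inv_mul_le_iff₀ (Real.exp_pos _), mul_one]
    linarith
  rw [div_le_div_iff₀ (by positivity) (by positivity), one_mul]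
  have h4 : Real.exp (-(‖z‖ ^ 2) / (4 * t)) * (Real.pi * r ^ 2)
      ≤ Real.exp (-(r ^ 2 / (4 * t))) * (Real.pi * r ^ 2) :=
    mul_le_mul_of_nonneg_right h1 (by positivity)
  have h5 : Real.exp (-(r ^ 2 / (4 * t))) * (Real.pi * r ^ 2)
      = (Real.exp (-(r ^ 2 / (4 * t))) * (r ^ 2 / (4 * t))) * (4 * Real.pi * t) := by
    field_simp
  rw [h5] at h4
  exact h4.trans (by
    have := mul_le_mul_of_nonneg_right h2 (by positivity : 0 ≤ 4 * Real.pi * t)
    linarith)

/-- the reflected point is not close to the window -/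
theorem rf_far {η1 η2 d δ ζ1 ζ2 : ℝ} (hδ : 0 < δ) {x y : ℂ}
    (hx : x ∈ Rw (d - 2 * δ) δ ζ1 ζ2) (hy : y ∈ Rw (d - 2 * δ) δ ζ1 ζ2) :
    2 * δ ≤ ‖rf (us η1 η2) (hh d) 0 y - x‖ := by
  have e : (rf (us η1 η2) (hh d) 0 y - x).re = 2 * d - y.re - x.re := by
    unfold rf us hh
    simp only [if_true]
    unfold ip
    simp
    ring
  have hx1 := abs_lt.1 hx.1
  have hy1 := abs_lt.1 hy.1
  refine le_trans ?_ (Complex.abs_re_le_norm _)
  rw [e]
  refine le_trans ?_ (le_abs_self _)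
  linarith

theorem rf_cont (u : Fin 3 → ℂ) (h : Fin 3 → ℝ) (s : Fin 3) : Continuous (rf u h s) := by
  unfold rf ip
  fun_prop

/-- the integrand -/
noncomputable def FF (η1 η2 d δ a κ : ℝ) (O E : Finset (Fin 3)) (t : ℝ) (p : ℂ × ℂ) : ℝ :=
  Real.exp (-(κ ^ 2 * t)) * (G a (p.1 - p.2) * (ch (d - 2 * δ) p.2 - ch (d - 2 * δ) p.1) *
    kME (us η1 η2) (hh d) O E t (rf (us η1 η2) (hh d) 0 p.2) p.1)

theorem FF_meas (η1 η2 d δ a κ : ℝ) (O E : Finset (Fin 3)) :
    Measurable (Function.uncurry (FF η1 η2 d δ a κ O E)) := by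
  unfold FF
  have h1 : Measurable fun z : ℝ × ℂ × ℂ => Real.exp (-(κ ^ 2 * z.1)) := by fun_prop
  have h2 : Measurable fun z : ℝ × ℂ × ℂ => G a (z.2.1 - z.2.2) :=
    (H41.G_cont _).measurable.comp (by fun_prop)
  have h3 : Measurable fun z : ℝ × ℂ × ℂ => ch (d - 2 * δ) z.2.2 - ch (d - 2 * δ) z.2.1 :=
    ((ch_meas _).comp (by fun_prop)).sub ((ch_meas _).comp (by fun_prop))
  have h4 : Measurable fun z : ℝ × ℂ × ℂ =>
      kME (us η1 η2) (hh d) O E z.1 (rf (us η1 η2) (hh d) 0 z.2.2) z.2.1 := by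
    have h5 : Measurable fun z : ℝ × ℂ × ℂ => (z.1, rf (us η1 η2) (hh d) 0 z.2.2, z.2.1) := by
      refine measurable_fst.prodMk (Measurable.prodMk ?_ ?_)
      · exact (rf_cont _ _ _).measurable.comp (by fun_prop)
      · fun_prop
    have h6 := (kME_meas (us η1 η2) (hh d) O E).comp h5
    simp only [Function.comp_def] at h6
    exact h6
  exact h1.mul ((h2.mul h3).mul h4)

theorem FF_bound {η1 η2 d δ a κ ζ1 ζ2 : ℝ} (O E : Finset (Fin 3)) (hδ : 0 < δ) (ha : 0 < a)
    {t : ℝ} (ht : 0 < t) {p : ℂ × ℂ}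
    (hp : p ∈ Rw (d - 2 * δ) δ ζ1 ζ2 ×ˢ Rw (d - 2 * δ) δ ζ1 ζ2) :
    ‖FF η1 η2 d δ a κ O E t p‖ ≤ Real.exp (-(κ ^ 2 * t)) *
      ((4 * Real.pi * a)⁻¹ * (O.powerset.card * (1 / (Real.pi * (2 * δ) ^ 2)))) := by
  unfold FF
  rw [Real.norm_eq_abs, abs_mul, abs_of_pos (Real.exp_pos _)]
  refine mul_le_mul_of_nonneg_left ?_ (Real.exp_pos _).le
  rw [abs_mul, abs_mul]
  have h1 : |G a (p.1 - p.2)| * |ch (d - 2 * δ) p.2 - ch (d - 2 * δ) p.1|
      ≤ (4 * Real.pi * a)⁻¹ * 1 := by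
    refine mul_le_mul ?_ (ch_abs _ _ _) (abs_nonneg _) (by positivity)
    rw [abs_of_nonneg (H41.G_nonneg ha _)]
    unfold G
    rw [div_eq_mul_inv]
    refine mul_le_of_le_one_left (by positivity) ?_
    apply Real.exp_le_one_iff.2
    have : 0 ≤ ‖p.1 - p.2‖ ^ 2 / (4 * a) := by positivity
    have e : -(‖p.1 - p.2‖ ^ 2) / (4 * a) = -(‖p.1 - p.2‖ ^ 2 / (4 * a)) := by ring
    rw [e]
    linarith
  rw [mul_one] at h1
  refine mul_le_mul h1 ?_ (abs_nonneg _) (by positivity)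
  refine (kME_abs_le _ _ O E ht _ _).trans ?_
  exact mul_le_mul_of_nonneg_left (G_far ht (by positivity) (rf_far hδ hp.1 hp.2))
    (Nat.cast_nonneg _)

theorem cvt : AEU.H12F.CvtStatement := by
  intro η1 η2 d δ ζ1 ζ2 c κ O E hd hδ hδd hc hκ _ _ _
  have ha : 0 < c / κ := by positivity
  set a : ℝ := c / κ with had
  set S : Set ℂ := Rw (d - 2 * δ) δ ζ1 ζ2 with hS
  have hSm : MeasurableSet S := (Rw_open _ _ _ _).measurableSet
  have hSf : volume S < ⊤ := Rw_finite _ _ _ _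
  haveI : IsFiniteMeasure (volume.restrict S) := ⟨by
    rw [Measure.restrict_apply_univ]
    exact hSf⟩
  set F := FF η1 η2 d δ a κ O E with hF
  set M : ℝ := (4 * Real.pi * a)⁻¹ * (O.powerset.card * (1 / (Real.pi * (2 * δ) ^ 2))) with hM
  have hexp : IntegrableOn (fun t : ℝ => Real.exp (-(κ ^ 2 * t))) (Set.Ioi 0) := by
    have := integrableOn_exp_mul_Ioi (a := -(κ ^ 2)) (by
      have : 0 < κ ^ 2 := by positivity
      linarith) 0
    refine this.congr_fun (fun t _ => ?_) measurableSet_Ioi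
    simp only
    congr 1
    ring
  have hprod : (volume.restrict (Set.Ioi (0 : ℝ))).prod
      ((volume.restrict S).prod (volume.restrict S))
      = ((volume : Measure ℝ).prod ((volume : Measure ℂ).prod (volume : Measure ℂ))).restrict
        (Set.Ioi (0 : ℝ) ×ˢ (S ×ˢ S)) := by
    rw [Measure.prod_restrict, Measure.prod_restrict]
  have hint : Integrable (Function.uncurry F) ((volume.restrict (Set.Ioi (0 : ℝ))).prod
      ((volume.restrict S).prod (volume.restrict S))) := by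
    have h1 : Integrable (fun z : ℝ × ℂ × ℂ => Real.exp (-(κ ^ 2 * z.1)) * M)
        ((volume.restrict (Set.Ioi (0 : ℝ))).prod
          ((volume.restrict S).prod (volume.restrict S))) :=
      Integrable.mul_prod hexp (integrable_const M)
    refine h1.mono' (FF_meas η1 η2 d δ a κ O E).aestronglyMeasurable ?_
    rw [hprod]
    filter_upwards [ae_restrict_mem (measurableSet_Ioi.prod (hSm.prod hSm))] with z hz
    exact FF_bound O E hδ ha hz.1 hz.2
  -- the window as a product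
  have hFt : ∀ t ∈ Set.Ioi (0 : ℝ), ∫ x in S, ∫ y in S, F t (x, y)
      = ∫ p, F t p ∂((volume.restrict S).prod (volume.restrict S)) := by
    intro t ht
    rw [integral_prod]
    have h1 : Integrable (fun _ : ℂ × ℂ => Real.exp (-(κ ^ 2 * t)) * M)
        ((volume.restrict S).prod (volume.restrict S)) := integrable_const _
    refine h1.mono' ((FF_meas η1 η2 d δ a κ O E).comp
      measurable_prodMk_left).aestronglyMeasurable ?_
    rw [Measure.prod_restrict]
    filter_upwards [ae_restrict_mem (hSm.prod hSm)] with z hz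
    exact FF_bound O E hδ ha ht hz
  -- the shift
  have hshift : (∫ t in Set.Ioi a, Real.exp (-(κ ^ 2 * t)) *
        TT3 η1 η2 d O E (d - 2 * δ) δ ζ1 ζ2 a t)
      = ∫ t in Set.Ioi (0 : ℝ), Real.exp (-(κ ^ 2 * (t + a))) *
        TT3 η1 η2 d O E (d - 2 * δ) δ ζ1 ζ2 a (t + a) := by
    have hmp : MeasurePreserving (fun t : ℝ => t + a) volume volume :=
      measurePreserving_add_right volume a
    have hemb : MeasurableEmbedding (fun t : ℝ => t + a) :=
      (Homeomorph.addRight a).measurableEmbedding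
    have := hmp.setIntegral_preimage_emb hemb (fun t : ℝ => Real.exp (-(κ ^ 2 * t)) *
        TT3 η1 η2 d O E (d - 2 * δ) δ ζ1 ζ2 a t) (Set.Ioi a)
    have hpre : (fun t : ℝ => t + a) ⁻¹' Set.Ioi a = Set.Ioi 0 := by
      ext t
      simp
    rw [hpre] at this
    exact this.symm
  rw [hshift]
  have hE : Real.exp (-(κ * c)) = Real.exp (-(κ ^ 2 * a)) := by
    congr 2
    rw [had]
    field_simp
  have hin : ∀ t ∈ Set.Ioi (0 : ℝ), Real.exp (-(κ ^ 2 * (t + a))) *
      TT3 η1 η2 d O E (d - 2 * δ) δ ζ1 ζ2 a (t + a)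
      = Real.exp (-(κ * c)) * ∫ p, F t p ∂((volume.restrict S).prod (volume.restrict S)) := by
    intro t ht
    rw [← hFt t ht]
    unfold TT3
    have e1 : Real.exp (-(κ ^ 2 * (t + a))) = Real.exp (-(κ * c)) * Real.exp (-(κ ^ 2 * t)) := by
      rw [hE, ← Real.exp_add]
      congr 1
      ring
    have e2 : t + a - a = t := by ring
    rw [e1, e2, mul_assoc]
    congr 1
    rw [← integral_const_mul]
    refine integral_congr_ae (Eventually.of_forall fun x => ?_)
    simp only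
    rw [← integral_const_mul]
    rfl
  rw [setIntegral_congr_fun measurableSet_Ioi hin, integral_const_mul]
  congr 1
  have hint2 : Integrable (fun p : ℂ × ℂ => ∫ t in Set.Ioi (0 : ℝ), F t p)
      ((volume.restrict S).prod (volume.restrict S)) := hint.integral_prod_right
  rw [integral_integral_swap hint, integral_prod _ hint2]
  refine integral_congr_ae (Eventually.of_forall fun x => ?_)
  refine integral_congr_ae (Eventually.of_forall fun y => ?_)
  simp only
  rw [← integral_const_mul]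
  refine integral_congr_ae (Eventually.of_forall fun t => ?_)
  rw [hF]
  unfold FF
  simp only
  ring

end Pool.Agent.H60K.H15
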