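import Pool.Agent.Helper60_AEU.Stmt
import Pool.Agent.Helper44_BLK.Psg

/-!
AEU (MP_5b0138_an), Part III, module HPK: the heat kernel of a half-plane (helper15).
-/

namespace Pool.Agent.H60K.H15

open MeasureTheory Complex Filter Topology ProbabilityTheory Pool.Agent.H16Iso Pool.Agent.H62T
  Pool.Agent.H16F
open scoped ENNReal NNReal

/-! ### The reflection -/

/-- reflection in the line `ip u z = b` -/
noncomputable def rl (u : ℂ) (b : ℝ) (z : ℂ) : ℂ := z - ((2 * (ip u z - b) : ℝ) : ℂ) * u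

/-- the half-plane -/
def Hp (u : ℂ) (b : ℝ) : Set ℂ := {z | ip u z < b}

theorem Hp_open (u : ℂ) (b : ℝ) : IsOpen (Hp u b) := by
  apply isOpen_lt _ continuous_const
  unfold ip
  fun_prop

variable {u : ℂ} {b : ℝ}

theorem un (hu : ‖u‖ = 1) : u.re * u.re + u.im * u.im = 1 := by
  have h := Complex.normSq_eq_norm_sq u
  rw [hu, Complex.normSq_apply] at h
  linarith

theorem rl_re (z : ℂ) : (rl u b z).re = z.re - 2 * (ip u z - b) * u.re := by
  unfold rl
  rw [Complex.sub_re, Complex.re_ofReal_mul]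

theorem rl_im (z : ℂ) : (rl u b z).im = z.im - 2 * (ip u z - b) * u.im := by
  unfold rl
  rw [Complex.sub_im, Complex.im_ofReal_mul]

theorem ip_rl (hu : ‖u‖ = 1) (z : ℂ) : ip u (rl u b z) = 2 * b - ip u z := by
  have h := un hu
  have e : ip u (rl u b z) = u.re * (rl u b z).re + u.im * (rl u b z).im := rfl
  rw [e, rl_re, rl_im]
  have e2 : ip u z = u.re * z.re + u.im * z.im := rfl
  rw [e2]
  linear_combination (-2 * (u.re * z.re + u.im * z.im - b)) * h

theorem rl_rl (hu : ‖u‖ = 1) (z : ℂ) : rl u b (rl u b z) = z := by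
  apply Complex.ext
  · rw [rl_re, ip_rl hu, rl_re]
    ring
  · rw [rl_im, ip_rl hu, rl_im]
    ring

theorem rl_fix {z : ℂ} (hz : ip u z = b) : rl u b z = z := by
  unfold rl
  rw [hz]
  simp

theorem nsq (z : ℂ) : ‖z‖ ^ 2 = z.re * z.re + z.im * z.im := by
  rw [← Complex.normSq_eq_norm_sq, Complex.normSq_apply]

theorem norm_rl_rl (hu : ‖u‖ = 1) (x y : ℂ) : ‖rl u b x - rl u b y‖ = ‖x - y‖ := by
  have h := un hu
  have e : ‖rl u b x - rl u b y‖ ^ 2 = ‖x - y‖ ^ 2 := by
    rw [nsq, nsq]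
    simp only [Complex.sub_re, Complex.sub_im, rl_re, rl_im]
    have e1 : ip u x = u.re * x.re + u.im * x.im := rfl
    have e2 : ip u y = u.re * y.re + u.im * y.im := rfl
    rw [e1, e2]
    linear_combination (4 * (u.re * (x.re - y.re) + u.im * (x.im - y.im)) ^ 2) * h
  exact (sq_eq_sq₀ (norm_nonneg _) (norm_nonneg _)).1 e

theorem norm_sub_rl (hu : ‖u‖ = 1) (x y : ℂ) : ‖x - rl u b y‖ = ‖rl u b x - y‖ := by
  have h := norm_rl_rl (b := b) hu x (rl u b y)
  rw [rl_rl hu] at h
  exact h.symm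

theorem norm_sub_rl_sq (hu : ‖u‖ = 1) (x y : ℂ) :
    ‖x - rl u b y‖ ^ 2 = ‖x - y‖ ^ 2 + 4 * (b - ip u x) * (b - ip u y) := by
  have h := un hu
  rw [nsq, nsq]
  simp only [Complex.sub_re, Complex.sub_im, rl_re, rl_im]
  have e1 : ip u x = u.re * x.re + u.im * x.im := rfl
  have e2 : ip u y = u.re * y.re + u.im * y.im := rfl
  rw [e1, e2]
  linear_combination (4 * (u.re * y.re + u.im * y.im - b) ^ 2) * h

theorem rl_eq (hu : ‖u‖ = 1) (z : ℂ) :
    rl u b z = (-(u ^ 2)) * (starRingEnd ℂ) z + 2 * (b : ℂ) * u := by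
  have h := un hu
  apply Complex.ext
  · rw [rl_re]
    have e2 : ip u z = u.re * z.re + u.im * z.im := rfl
    rw [e2]
    simp [pow_two]
    linear_combination (-z.re) * h
  · rw [rl_im]
    have e2 : ip u z = u.re * z.re + u.im * z.im := rfl
    rw [e2]
    simp [pow_two]
    linear_combination (-z.im) * h

theorem rl_cont : Continuous (rl u b) := by
  unfold rl ip
  fun_prop

theorem rl_mp (hu : ‖u‖ = 1) : MeasurePreserving (rl u b) volume volume := by
  have h1 : MeasurePreserving (fun z : ℂ => (starRingEnd ℂ) z) volume volume :=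
    Complex.conjLIE.measurePreserving
  have hn : ‖-(u ^ 2)‖ = 1 := by simp [hu]
  have h2 : MeasurePreserving (fun z : ℂ => (-(u ^ 2)) * z) volume volume := by
    let c : Circle := ⟨-(u ^ 2), mem_sphere_zero_iff_norm.2 hn⟩
    exact (rotation c).measurePreserving
  have h3 : MeasurePreserving (fun z : ℂ => z + 2 * (b : ℂ) * u) volume volume :=
    measurePreserving_add_right volume _
  have h4 := (h3.comp h2).comp h1
  have e : rl u b = ((fun z : ℂ => z + 2 * (b : ℂ) * u) ∘ fun z : ℂ => (-(u ^ 2)) * z) ∘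
      fun z : ℂ => (starRingEnd ℂ) z := by
    funext z
    exact rl_eq hu z
  rw [e]
  exact h4

theorem rl_emb (hu : ‖u‖ = 1) : MeasurableEmbedding (rl u b) :=
  rl_cont.measurable.measurableEmbedding (fun x y h => by
    rw [← rl_rl (b := b) hu x, h, rl_rl hu])

/-! ### The image kernel -/

/-- image kernel without the cut-off -/
noncomputable def gi (u : ℂ) (b t : ℝ) (x y : ℂ) : ℝ := G t (x - y) - G t (x - rl u b y)

/-- image kernel -/
noncomputable def qi (u : ℂ) (b t : ℝ) (x y : ℂ) : ℝ :=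
  (Hp u b).indicator (fun _ => (1 : ℝ)) x * (Hp u b).indicator (fun _ => (1 : ℝ)) y * gi u b t x y

theorem gi_eq (hu : ‖u‖ = 1) {t : ℝ} (ht : 0 < t) (x y : ℂ) :
    gi u b t x y = G t (x - y) * (1 - Real.exp (-((b - ip u x) * (b - ip u y) / t))) := by
  unfold gi G
  rw [norm_sub_rl_sq hu]
  have e : -(‖x - y‖ ^ 2 + 4 * (b - ip u x) * (b - ip u y)) / (4 * t)
      = -(‖x - y‖ ^ 2) / (4 * t) + -((b - ip u x) * (b - ip u y) / t) := by
    field_simp
    ring
  rw [e, Real.exp_add]
  ring

theorem gi_nonneg (hu : ‖u‖ = 1) {t : ℝ} (ht : 0 < t) {x y : ℂ} (hx : ip u x < b)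
    (hy : ip u y < b) : 0 ≤ gi u b t x y := by
  rw [gi_eq hu ht]
  refine mul_nonneg (H41.G_nonneg ht _) ?_
  have : 0 ≤ (b - ip u x) * (b - ip u y) / t := by
    have h1 : 0 < b - ip u x := by linarith
    have h2 : 0 < b - ip u y := by linarith
    positivity
  have h3 : Real.exp (-((b - ip u x) * (b - ip u y) / t)) ≤ 1 :=
    Real.exp_le_one_iff.2 (by linarith)
  linarith

theorem ind_cases (x : ℂ) : (ip u x < b ∧ (Hp u b).indicator (fun _ => (1 : ℝ)) x = 1) ∨
    (¬ ip u x < b ∧ (Hp u b).indicator (fun _ => (1 : ℝ)) x = 0) := by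
  by_cases h : ip u x < b
  · left
    exact ⟨h, Set.indicator_of_mem (show x ∈ Hp u b from h) _⟩
  · right
    exact ⟨h, Set.indicator_of_notMem (show x ∉ Hp u b from h) _⟩

theorem qi_nonneg (hu : ‖u‖ = 1) {t : ℝ} (ht : 0 < t) (x y : ℂ) : 0 ≤ qi u b t x y := by
  unfold qi
  rcases ind_cases (u := u) (b := b) x with ⟨h1, e1⟩ | ⟨h1, e1⟩ <;>
  rcases ind_cases (u := u) (b := b) y with ⟨h2, e2⟩ | ⟨h2, e2⟩ <;> rw [e1, e2]
  · have := gi_nonneg hu ht h1 h2
    simpa using this
  all_goals simp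

theorem qi_le (hu : ‖u‖ = 1) {t : ℝ} (ht : 0 < t) (x y : ℂ) :
    qi u b t x y ≤ G t (x - y) := by
  unfold qi
  have hG := H41.G_nonneg ht (x - y)
  rcases ind_cases (u := u) (b := b) x with ⟨h1, e1⟩ | ⟨h1, e1⟩ <;>
  rcases ind_cases (u := u) (b := b) y with ⟨h2, e2⟩ | ⟨h2, e2⟩ <;> rw [e1, e2]
  · unfold gi
    have := H41.G_nonneg ht (x - rl u b y)
    linarith
  all_goals simpa using hG

theorem gi_meas (t : ℝ) : Measurable (Function.uncurry (gi u b t)) := by
  have h1 : Measurable fun p : ℂ × ℂ => G t (p.1 - p.2) :=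
    (H41.G_cont _).measurable.comp (measurable_fst.sub measurable_snd)
  have h2 : Measurable fun p : ℂ × ℂ => G t (p.1 - rl u b p.2) :=
    (H41.G_cont _).measurable.comp
      (measurable_fst.sub (rl_cont.measurable.comp measurable_snd))
  exact h1.sub h2

theorem gi_inv (hu : ‖u‖ = 1) (s : ℝ) (x y z : ℂ) :
    gi u b s x (rl u b z) * gi u b s (rl u b z) y = gi u b s x z * gi u b s z y := by
  unfold gi
  rw [rl_rl hu]
  have e1 : G s (rl u b z - rl u b y) = G s (z - y) := by
    unfold G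
    rw [norm_rl_rl hu]
  have e2 : G s (rl u b z - y) = G s (z - rl u b y) := by
    unfold G
    rw [norm_sub_rl hu]
  rw [e1, e2]
  ring

theorem gi_prod_int (hu : ‖u‖ = 1) {s : ℝ} (hs : 0 < s) (x y : ℂ) :
    Integrable fun z => gi u b s x z * gi u b s z y := by
  have a1 := H41.G_integrable s hs x y
  have a2 := H41.G_integrable s hs x (rl u b y)
  have a3 := H41.G_integrable s hs (rl u b x) y
  have a4 := H41.G_integrable s hs (rl u b x) (rl u b y)
  have h := ((a1.sub a2).sub a3).add a4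
  refine h.congr (Eventually.of_forall fun z => ?_)
  have e2 : G s (rl u b x - z) = G s (x - rl u b z) := by
    unfold G
    rw [norm_sub_rl hu]
  simp only [Pi.add_apply, Pi.sub_apply]
  unfold gi
  rw [e2]
  ring

theorem gi_full (hu : ‖u‖ = 1) {t : ℝ} (ht : 0 < t) (x y : ℂ) :
    ∫ z, gi u b (t / 2) x z * gi u b (t / 2) z y = 2 * gi u b t x y := by
  have hs : 0 < t / 2 := by positivity
  have a1 := H41.G_integrable (t / 2) hs x y
  have a2 := H41.G_integrable (t / 2) hs x (rl u b y)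
  have a3 := H41.G_integrable (t / 2) hs (rl u b x) y
  have a4 := H41.G_integrable (t / 2) hs (rl u b x) (rl u b y)
  have e : (fun z => gi u b (t / 2) x z * gi u b (t / 2) z y) = fun z =>
      G (t / 2) (x - z) * G (t / 2) (z - y) - G (t / 2) (x - z) * G (t / 2) (z - rl u b y)
      - G (t / 2) (rl u b x - z) * G (t / 2) (z - y)
      + G (t / 2) (rl u b x - z) * G (t / 2) (z - rl u b y) := by
    funext z
    have e2 : G (t / 2) (rl u b x - z) = G (t / 2) (x - rl u b z) := by
      unfold G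
      rw [norm_sub_rl hu]
    unfold gi
    rw [e2]
    ring
  have b1 : Integrable fun z => G (t / 2) (x - z) * G (t / 2) (z - y)
      - G (t / 2) (x - z) * G (t / 2) (z - rl u b y) := a1.sub a2
  have b2 : Integrable fun z => G (t / 2) (x - z) * G (t / 2) (z - y)
      - G (t / 2) (x - z) * G (t / 2) (z - rl u b y)
      - G (t / 2) (rl u b x - z) * G (t / 2) (z - y) := b1.sub a3
  rw [e, integral_add b2 a4, integral_sub b1 a3, integral_sub a1 a2,
    H41.G_conv t ht, H41.G_conv t ht, H41.G_conv t ht, H41.G_conv t ht]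
  have e3 : G t (rl u b x - rl u b y) = G t (x - y) := by
    unfold G
    rw [norm_rl_rl hu]
  have e4 : G t (rl u b x - y) = G t (x - rl u b y) := by
    unfold G
    rw [norm_sub_rl hu]
  rw [e3, e4]
  unfold gi
  ring

theorem gi_half (hu : ‖u‖ = 1) {t : ℝ} (ht : 0 < t) (x y : ℂ) :
    ∫ z in Hp u b, gi u b (t / 2) x z * gi u b (t / 2) z y = gi u b t x y := by
  have hs : 0 < t / 2 := by positivity
  set f : ℂ → ℝ := fun z => gi u b (t / 2) x z * gi u b (t / 2) z y with hf
  have hi : Integrable f := gi_prod_int hu hs x y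
  have hfull : ∫ z, f z = 2 * gi u b t x y := gi_full hu ht x y
  have hm : MeasurableSet (Hp u b) := (Hp_open u b).measurableSet
  have hadd := integral_add_compl hm hi
  have hinv : ∀ z, f (rl u b z) = f z := fun z => gi_inv hu _ x y z
  have h2 : ∫ z in (Hp u b)ᶜ, f z = ∫ z in Hp u b, f z := by
    rw [← (rl_mp (b := b) hu).setIntegral_preimage_emb (rl_emb hu) f (Hp u b)ᶜ]
    rw [← integral_indicator hm, ← integral_indicator
      (rl_cont.measurable hm.compl)]
    congr 1
    funext z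
    by_cases hz : ip u z < b
    · rw [Set.indicator_of_mem (show z ∈ Hp u b from hz), Set.indicator_of_mem, hinv]
      show ¬ ip u (rl u b z) < b
      rw [ip_rl hu]
      linarith
    · rw [Set.indicator_of_notMem (show z ∉ Hp u b from hz)]
      by_cases hz2 : ip u z = b
      · have e0 : f z = 0 := by
          show gi u b (t / 2) x z * gi u b (t / 2) z y = 0
          have : gi u b (t / 2) x z = 0 := by
            unfold gi
            rw [rl_fix hz2, sub_self]
          rw [this, zero_mul]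
        by_cases hmem : z ∈ rl u b ⁻¹' (Hp u b)ᶜ
        · rw [Set.indicator_of_mem hmem, hinv, e0]
        · rw [Set.indicator_of_notMem hmem]
      · rw [Set.indicator_of_notMem]
        intro hmem
        have h3 : ¬ ip u (rl u b z) < b := hmem
        rw [ip_rl hu] at h3
        have h4 : b < ip u z := lt_of_le_of_ne (not_lt.1 hz) (Ne.symm hz2)
        exact h3 (by linarith)
  linarith

theorem qi_ck (hu : ‖u‖ = 1) {t : ℝ} (ht : 0 < t) (x y : ℂ) :
    ∫ z, qi u b (t / 2) x z * qi u b (t / 2) z y = qi u b t x y := by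
  have hm : MeasurableSet (Hp u b) := (Hp_open u b).measurableSet
  have e : (fun z => qi u b (t / 2) x z * qi u b (t / 2) z y) = fun z =>
      ((Hp u b).indicator (fun _ => (1 : ℝ)) x * (Hp u b).indicator (fun _ => (1 : ℝ)) y) *
      (Hp u b).indicator (fun z => gi u b (t / 2) x z * gi u b (t / 2) z y) z := by
    funext z
    unfold qi
    by_cases hz : z ∈ Hp u b
    · rw [Set.indicator_of_mem hz, Set.indicator_of_mem hz]
      ring
    · rw [Set.indicator_of_notMem hz, Set.indicator_of_notMem hz]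
      ring
  rw [e, integral_const_mul, integral_indicator hm, gi_half hu ht]
  rfl

theorem qi_int (hu : ‖u‖ = 1) {s : ℝ} (hs : 0 < s) (x y : ℂ) :
    Integrable fun z => qi u b s x z * qi u b s z y := by
  have hm : MeasurableSet (Hp u b) := (Hp_open u b).measurableSet
  have e : (fun z => qi u b s x z * qi u b s z y) = fun z =>
      ((Hp u b).indicator (fun _ => (1 : ℝ)) x * (Hp u b).indicator (fun _ => (1 : ℝ)) y) *
      (Hp u b).indicator (fun z => gi u b s x z * gi u b s z y) z := by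
    funext z
    unfold qi
    by_cases hz : z ∈ Hp u b
    · rw [Set.indicator_of_mem hz, Set.indicator_of_mem hz]
      ring
    · rw [Set.indicator_of_notMem hz, Set.indicator_of_notMem hz]
      ring
  rw [e]
  exact ((gi_prod_int hu hs x y).indicator hm).const_mul _

/-! ### Comparison -/

theorem lower (hu : ‖u‖ = 1) (m : ℕ) : ∀ t : ℝ, 0 < t → ∀ x y : ℂ,
    qi u b t x y ≤ Ker (Hp u b) m t x y := by
  induction m with
  | zero =>
    intro t ht x y
    simp only [Ker]
    unfold qi
    refine mul_le_mul_of_nonneg_left ?_ ?_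
    · unfold gi
      have := H41.G_nonneg ht (x - rl u b y)
      linarith
    · exact mul_nonneg (Set.indicator_nonneg (fun _ _ => zero_le_one) _)
        (Set.indicator_nonneg (fun _ _ => zero_le_one) _)
  | succ m ih =>
    intro t ht x y
    have hs : 0 < t / 2 := by positivity
    rw [← qi_ck hu ht x y]
    simp only [Ker]
    refine integral_mono (qi_int hu hs x y) (H41.ker_integrable _ (Hp_open u b) m _ hs x y)
      fun z => ?_
    exact mul_le_mul (ih _ hs _ _) (ih _ hs _ _) (qi_nonneg hu hs _ _)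
      (((H41.basic _ (Hp_open u b) m _ hs).2.1 x z).1)

theorem upper (hu : ‖u‖ = 1) {ε : ℝ} (hε : 0 < ε) (m : ℕ) : ∀ t : ℝ, 0 < t → ∀ x y : ℂ,
    (1 - Real.exp (-(ε ^ 2 * 2 ^ m / t))) ^ (2 ^ m) * Ker (Hp u b) m t x y
      ≤ qi u (b + ε) t x y := by
  induction m with
  | zero =>
    intro t ht x y
    simp only [Ker]
    have hc : 0 ≤ 1 - Real.exp (-(ε ^ 2 * 2 ^ 0 / t)) := by
      have : 0 ≤ ε ^ 2 * 2 ^ 0 / t := by positivity
      have h3 : Real.exp (-(ε ^ 2 * 2 ^ 0 / t)) ≤ 1 := Real.exp_le_one_iff.2 (by linarith)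
      linarith
    rcases ind_cases (u := u) (b := b) x with ⟨h1, e1⟩ | ⟨h1, e1⟩
    · rcases ind_cases (u := u) (b := b) y with ⟨h2, e2⟩ | ⟨h2, e2⟩
      · unfold qi
        rw [e1, e2]
        have hx : x ∈ Hp u (b + ε) := show ip u x < b + ε by linarith
        have hy : y ∈ Hp u (b + ε) := show ip u y < b + ε by linarith
        rw [Set.indicator_of_mem hx, Set.indicator_of_mem hy, gi_eq hu ht]
        have hG := H41.G_nonneg ht (x - y)
        have hle : ε ^ 2 * 2 ^ 0 / t ≤ (b + ε - ip u x) * (b + ε - ip u y) / t := by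
          refine div_le_div_of_nonneg_right ?_ ht.le
          have h3 : ε ≤ b + ε - ip u x := by linarith
          have h4 : ε ≤ b + ε - ip u y := by linarith
          nlinarith [mul_le_mul h3 h4 hε.le (by linarith)]
        have hexp : Real.exp (-((b + ε - ip u x) * (b + ε - ip u y) / t))
            ≤ Real.exp (-(ε ^ 2 * 2 ^ 0 / t)) := Real.exp_le_exp.2 (by linarith)
        simp only [pow_zero, pow_one, one_mul]
        rw [pow_zero] at hexp
        rw [mul_comm]
        exact mul_le_mul_of_nonneg_left (by linarith) hG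
      · rw [e2]
        simpa using qi_nonneg hu ht x y
    · rw [e1]
      simpa using qi_nonneg hu ht x y
  | succ m ih =>
    intro t ht x y
    have hs : 0 < t / 2 := by positivity
    rw [← qi_ck hu ht x y]
    simp only [Ker]
    have ec : ε ^ 2 * 2 ^ (m + 1) / t = ε ^ 2 * 2 ^ m / (t / 2) := by
      field_simp
      ring
    set c : ℝ := (1 - Real.exp (-(ε ^ 2 * 2 ^ m / (t / 2)))) ^ (2 ^ m) with hcd
    have hc : 0 ≤ c := by
      apply pow_nonneg
      have : 0 ≤ ε ^ 2 * 2 ^ m / (t / 2) := by positivity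
      have h3 : Real.exp (-(ε ^ 2 * 2 ^ m / (t / 2))) ≤ 1 := Real.exp_le_one_iff.2 (by linarith)
      linarith
    have ep : (1 - Real.exp (-(ε ^ 2 * 2 ^ (m + 1) / t))) ^ (2 ^ (m + 1)) = c * c := by
      rw [ec, pow_succ 2 m, pow_mul, ← hcd, pow_two]
    rw [ep, ← integral_const_mul]
    refine integral_mono ((H41.ker_integrable _ (Hp_open u b) m _ hs x y).const_mul _)
      (qi_int hu hs x y) fun z => ?_
    have k1 := ((H41.basic _ (Hp_open u b) m _ hs).2.1 x z).1
    have k2 := ((H41.basic _ (Hp_open u b) m _ hs).2.1 z y).1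
    have e : c * c * (Ker (Hp u b) m (t / 2) x z * Ker (Hp u b) m (t / 2) z y)
        = (c * Ker (Hp u b) m (t / 2) x z) * (c * Ker (Hp u b) m (t / 2) z y) := by ring
    show c * c * (Ker (Hp u b) m (t / 2) x z * Ker (Hp u b) m (t / 2) z y) ≤ _
    rw [e]
    exact mul_le_mul (ih _ hs _ _) (ih _ hs _ _) (mul_nonneg hc k2) (qi_nonneg hu hs _ _)

theorem pD_le_qi (hu : ‖u‖ = 1) {ε : ℝ} (hε : 0 < ε) {t : ℝ} (ht : 0 < t) (x y : ℂ) :
    pD (Hp u b) t x y ≤ qi u (b + ε) t x y := by
  have hp := H8.pD_tendsto (Hp_open u b) ht x y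
  have hz : Tendsto (fun m : ℕ => (2 : ℝ) ^ m * Real.exp (-(ε ^ 2 * 2 ^ m / t))) atTop (𝓝 0) := by
    have h1 : Tendsto (fun m : ℕ => (2 : ℝ) ^ m) atTop atTop :=
      tendsto_pow_atTop_atTop_of_one_lt (by norm_num)
    have h2 := Real.tendsto_pow_mul_exp_neg_atTop_nhds_zero 1
    have hk : 0 < ε ^ 2 / t := by positivity
    have h3 : Tendsto (fun v : ℝ => v * Real.exp (-(ε ^ 2 / t * v))) atTop (𝓝 0) := by
      have h4 : Tendsto (fun v : ℝ => ε ^ 2 / t * v) atTop atTop :=
        tendsto_id.const_mul_atTop hk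
      have h5 := (h2.comp h4).const_mul ((ε ^ 2 / t)⁻¹)
      rw [mul_zero] at h5
      refine h5.congr fun v => ?_
      simp only [Function.comp, pow_one]
      field_simp
    refine (h3.comp h1).congr fun m => ?_
    simp only [Function.comp]
    congr 2
    ring
  have hlim : Tendsto (fun m : ℕ => (1 - (2 : ℝ) ^ m * Real.exp (-(ε ^ 2 * 2 ^ m / t)))
      * Ker (Hp u b) m t x y) atTop (𝓝 ((1 - 0) * pD (Hp u b) t x y)) :=
    (tendsto_const_nhds.sub hz).mul hp
  rw [sub_zero, one_mul] at hlim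
  refine le_of_tendsto hlim (Eventually.of_forall fun m => ?_)
  refine le_trans ?_ (upper hu hε m t ht x y)
  refine mul_le_mul_of_nonneg_right ?_ ((H41.basic _ (Hp_open u b) m _ ht).2.1 x y).1
  have hb := one_add_mul_le_pow (a := -Real.exp (-(ε ^ 2 * 2 ^ m / t))) (by
    have : 0 ≤ ε ^ 2 * 2 ^ m / t := by positivity
    have h3 : Real.exp (-(ε ^ 2 * 2 ^ m / t)) ≤ 1 := Real.exp_le_one_iff.2 (by linarith)
    linarith) (2 ^ m)
  push_cast at hb
  have e1 : 1 + (2 : ℝ) ^ m * -Real.exp (-(ε ^ 2 * 2 ^ m / t))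
      = 1 - 2 ^ m * Real.exp (-(ε ^ 2 * 2 ^ m / t)) := by ring
  have e2 : 1 + -Real.exp (-(ε ^ 2 * 2 ^ m / t)) = 1 - Real.exp (-(ε ^ 2 * 2 ^ m / t)) := by ring
  rw [e1, e2] at hb
  exact hb

theorem pD_half (hu : ‖u‖ = 1) {t : ℝ} (ht : 0 < t) {x y : ℂ} (hx : ip u x < b)
    (hy : ip u y < b) : pD {z | ip u z < b} t x y = gi u b t x y := by
  have hq : qi u b t x y = gi u b t x y := by
    unfold qi
    rw [Set.indicator_of_mem (show x ∈ Hp u b from hx),
      Set.indicator_of_mem (show y ∈ Hp u b from hy), one_mul, one_mul]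
  apply le_antisymm
  · have hlim : Tendsto (fun ε : ℝ => G t (x - y)
        * (1 - Real.exp (-((b + ε - ip u x) * (b + ε - ip u y) / t)))) (𝓝[>] 0)
        (𝓝 (gi u b t x y)) := by
      rw [gi_eq hu ht]
      have hc : Continuous fun ε : ℝ => G t (x - y)
          * (1 - Real.exp (-((b + ε - ip u x) * (b + ε - ip u y) / t))) := by fun_prop
      have := hc.tendsto 0
      rw [add_zero] at this
      exact this.mono_left nhdsWithin_le_nhds
    refine ge_of_tendsto hlim ?_
    filter_upwards [self_mem_nhdsWithin] with ε hε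
    have hε' : 0 < ε := hε
    have h := pD_le_qi (b := b) hu hε' ht x y
    unfold qi at h
    rw [Set.indicator_of_mem (show x ∈ Hp u (b + ε) from (by
        show ip u x < b + ε
        linarith)), Set.indicator_of_mem (show y ∈ Hp u (b + ε) from (by
        show ip u y < b + ε
        linarith)), one_mul, one_mul, gi_eq hu ht] at h
    exact h
  · rw [← hq]
    exact le_ciInf fun m => lower hu m t ht x y

theorem hpk : HpkStatement := by
  intro u b t x y hu ht hx hy
  exact pD_half hu ht hx hy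

end Pool.Agent.H60K.H15
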