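import Pool.Agent.Helper15_AEU3.Hpk

/-!
AEU (MP_5b0138_an), Part III, module KES: paths in the wedge which visit both sides (helper15).
-/

namespace Pool.Agent.H60K.H15

open MeasureTheory Complex Filter Topology ProbabilityTheory Pool.Agent.H16Iso Pool.Agent.H62T
  Pool.Agent.H16F Pool.Agent.H38KL
open scoped ENNReal NNReal

/-! ### Algebra of the label kernels -/

theorem kME_pair (u : Fin 3 → ℂ) (h : Fin 3 → ℝ) (t : ℝ) (x y : ℂ) :
    kME u h {1, 2} ∅ t x y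
      = (pB u h ∅ t x y - pB u h {1} t x y) - kME u h {1} {2} t x y := by
  unfold kME
  have e1 : ({1, 2} : Finset (Fin 3)).powerset = {∅, {1}, {2}, {1, 2}} := by decide
  have e2 : ({1} : Finset (Fin 3)).powerset = {∅, {1}} := by decide
  rw [e1, e2, Finset.sum_insert (by decide), Finset.sum_insert (by decide),
    Finset.sum_insert (by decide), Finset.sum_singleton, Finset.sum_insert (by decide),
    Finset.sum_singleton]
  have c1 : ({1} : Finset (Fin 3)).card = 1 := by decide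
  have c2 : ({2} : Finset (Fin 3)).card = 1 := by decide
  have c3 : ({1, 2} : Finset (Fin 3)).card = 2 := by decide
  have c0 : (∅ : Finset (Fin 3)).card = 0 := by decide
  have f1 : (∅ ∪ ∅ : Finset (Fin 3)) = ∅ := by decide
  have f2 : (∅ ∪ {1} : Finset (Fin 3)) = {1} := by decide
  have f3 : (∅ ∪ {2} : Finset (Fin 3)) = {2} := by decide
  have f4 : (∅ ∪ {1, 2} : Finset (Fin 3)) = {1, 2} := by decide
  have f5 : ({2} ∪ ∅ : Finset (Fin 3)) = {2} := by decide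
  have f6 : ({2} ∪ {1} : Finset (Fin 3)) = {1, 2} := by decide
  rw [c0, c1, c2, c3, f1, f2, f3, f4, f5, f6]
  ring

theorem Dm_empty (u : Fin 3 → ℂ) (h : Fin 3 → ℝ) : Dm u h ∅ = Set.univ := by
  unfold Dm
  ext x
  simp

theorem Dm_one (u : Fin 3 → ℂ) (h : Fin 3 → ℝ) (s : Fin 3) :
    Dm u h {s} = {z | ip (u s) z < h s} := by
  unfold Dm
  ext x
  simp

theorem pB_diff (huni : UniStatement) (u : Fin 3 → ℂ) (h : Fin 3 → ℝ) (s : Fin 3)
    (hu : ‖u s‖ = 1) {t : ℝ} (ht : 0 < t) {x y : ℂ} (hx : ip (u s) x < h s)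
    (hy : ip (u s) y < h s) :
    pB u h ∅ t x y - pB u h {s} t x y = G t (x - rl (u s) (h s) y) := by
  unfold pB
  rw [Dm_empty, Dm_one, huni t x y ht, pD_half hu ht hx hy]
  unfold gi
  ring

/-! ### Geometry -/

theorem norm_us (η1 η2 : ℝ) (s : Fin 3) : ‖us η1 η2 s‖ = 1 := by
  unfold us
  split_ifs
  · simp
  · rw [norm_mul, Complex.norm_I, Complex.norm_exp_ofReal_mul_I, one_mul]
  · rw [norm_neg, norm_mul, Complex.norm_I, one_mul]
    have e : -((η2 : ℂ) * I) = ((-η2 : ℝ) : ℂ) * I := by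
      push_cast
      ring
    rw [e, Complex.norm_exp_ofReal_mul_I]

theorem us_one (η1 η2 : ℝ) : us η1 η2 1 = I * exp (η1 * I) := by
  unfold us
  rw [if_neg (by decide), if_pos rfl]

theorem hh_one (d : ℝ) : hh d 1 = 0 := by
  unfold hh
  rw [if_neg (by decide)]

theorem ip_us_one (η1 η2 r ψ : ℝ) :
    ip (us η1 η2 1) (r * exp (ψ * I)) = r * Real.sin (ψ - η1) := by
  rw [us_one]
  unfold ip
  simp only [Complex.mul_re, Complex.mul_im, Complex.I_re, Complex.I_im, Complex.ofReal_re,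
    Complex.ofReal_im, Complex.exp_ofReal_mul_I_re, Complex.exp_ofReal_mul_I_im]
  rw [Real.sin_sub]
  ring

theorem norm_polar_sub (r r' ψ ψ' : ℝ) :
    ‖(r : ℂ) * exp (ψ * I) - r' * exp (ψ' * I)‖ ^ 2
      = r ^ 2 + r' ^ 2 - 2 * r * r' * Real.cos (ψ - ψ') := by
  rw [nsq]
  simp only [Complex.sub_re, Complex.sub_im, Complex.mul_re, Complex.mul_im, Complex.ofReal_re,
    Complex.ofReal_im, Complex.exp_ofReal_mul_I_re, Complex.exp_ofReal_mul_I_im]
  rw [Real.cos_sub]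
  have h1 := Real.sin_sq_add_cos_sq ψ
  have h2 := Real.sin_sq_add_cos_sq ψ'
  linear_combination r ^ 2 * h1 + r' ^ 2 * h2

theorem norm_refl (η1 η2 r r' ψ ψ' : ℝ) :
    ‖(r : ℂ) * exp (ψ * I) - rl (us η1 η2 1) 0 (r' * exp (ψ' * I))‖ ^ 2
      = r ^ 2 + r' ^ 2 + 2 * r * r' * Real.cos (Real.pi - 2 * η1 + ψ + ψ') := by
  rw [norm_sub_rl_sq (norm_us η1 η2 1), norm_polar_sub, ip_us_one, ip_us_one]
  have e1 : Real.cos (Real.pi - 2 * η1 + ψ + ψ') = -Real.cos ((ψ - η1) + (ψ' - η1)) := by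
    rw [← Real.cos_pi_sub]
    have : Real.pi - (ψ - η1 + (ψ' - η1)) = -(ψ + ψ' - 2 * η1 - Real.pi) := by ring
    rw [this, Real.cos_neg]
    have e2 : Real.pi - 2 * η1 + ψ + ψ' = (ψ + ψ' - 2 * η1 - Real.pi) + 2 * Real.pi := by ring
    rw [e2, Real.cos_add_two_pi]
  have e3 : ψ - ψ' = (ψ - η1) - (ψ' - η1) := by ring
  rw [e1, e3, Real.cos_add, Real.cos_sub]
  ring

/-! ### The identity of the coefficients -/

theorem hyp_id (η1 η2 ψ ψ' τ : ℝ) (hs : Real.sinh ((η1 + η2) * τ) ≠ 0) :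
    (Real.sinh ((2 * (η1 + η2) - Real.pi) * τ) * Real.cosh ((η1 - η2 - ψ - ψ') * τ)
        + Real.sinh ((Real.pi - (η1 + η2)) * τ) * Real.cosh ((ψ - ψ') * τ))
        / Real.sinh ((η1 + η2) * τ)
      = Real.cosh ((Real.pi - 2 * η1 + ψ + ψ') * τ)
        - 2 * (Real.sinh (τ * (ψ + η2)) * Real.sinh (τ * (ψ' + η2))
          * (Real.sinh ((Real.pi - (η1 + η2)) * τ) / Real.sinh ((η1 + η2) * τ))) := by
  have e0 : (Real.cosh ((Real.pi - 2 * η1 + ψ + ψ') * τ)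
        - 2 * (Real.sinh (τ * (ψ + η2)) * Real.sinh (τ * (ψ' + η2))
          * (Real.sinh ((Real.pi - (η1 + η2)) * τ) / Real.sinh ((η1 + η2) * τ))))
          * Real.sinh ((η1 + η2) * τ)
      = Real.cosh ((Real.pi - 2 * η1 + ψ + ψ') * τ) * Real.sinh ((η1 + η2) * τ)
        - 2 * (Real.sinh (τ * (ψ + η2)) * Real.sinh (τ * (ψ' + η2)))
        * Real.sinh ((Real.pi - (η1 + η2)) * τ) := by
    have e00 : Real.sinh ((Real.pi - (η1 + η2)) * τ) / Real.sinh ((η1 + η2) * τ)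
        * Real.sinh ((η1 + η2) * τ) = Real.sinh ((Real.pi - (η1 + η2)) * τ) :=
      div_mul_cancel₀ _ hs
    linear_combination (-2 * (Real.sinh (τ * (ψ + η2)) * Real.sinh (τ * (ψ' + η2)))) * e00
  rw [div_eq_iff hs, e0]
  have p1 : ∀ a b : ℝ, Real.sinh a * Real.cosh b
      = (Real.sinh (a + b) + Real.sinh (a - b)) / 2 := by
    intro a b
    rw [Real.sinh_add, Real.sinh_sub]
    ring
  have p2 : ∀ a b : ℝ, 2 * (Real.sinh a * Real.sinh b)
      = Real.cosh (a + b) - Real.cosh (a - b) := by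
    intro a b
    rw [Real.cosh_add, Real.cosh_sub]
    ring
  have p3 : ∀ a b : ℝ, Real.cosh a * Real.sinh b
      = (Real.sinh (b + a) + Real.sinh (b - a)) / 2 := by
    intro a b
    rw [mul_comm, p1]
  have a1 : τ * (ψ + η2) + τ * (ψ' + η2) = (ψ + ψ' + 2 * η2) * τ := by ring
  have a2 : τ * (ψ + η2) - τ * (ψ' + η2) = (ψ - ψ') * τ := by ring
  have b1 : (η1 + η2) * τ + (Real.pi - 2 * η1 + ψ + ψ') * τ
      = (Real.pi - (η1 + η2)) * τ + (ψ + ψ' + 2 * η2) * τ := by ring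
  have b2 : (2 * (η1 + η2) - Real.pi) * τ + (η1 - η2 - ψ - ψ') * τ
      = (η1 + η2) * τ - (Real.pi - 2 * η1 + ψ + ψ') * τ := by ring
  have b3 : (2 * (η1 + η2) - Real.pi) * τ - (η1 - η2 - ψ - ψ') * τ
      = -((Real.pi - (η1 + η2)) * τ - (ψ + ψ' + 2 * η2) * τ) := by ring
  have ha := p1 ((2 * (η1 + η2) - Real.pi) * τ) ((η1 - η2 - ψ - ψ') * τ)
  rw [b2, b3, Real.sinh_neg] at ha
  have hc := p3 ((Real.pi - 2 * η1 + ψ + ψ') * τ) ((η1 + η2) * τ)
  rw [b1] at hc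
  have hd := p2 (τ * (ψ + η2)) (τ * (ψ' + η2))
  rw [a1, a2] at hd
  have he := p1 ((Real.pi - (η1 + η2)) * τ) ((ψ + ψ' + 2 * η2) * τ)
  linear_combination ha - hc + Real.sinh ((Real.pi - (η1 + η2)) * τ) * hd + he

/-! ### The formula of Kontorovich and Lebedev on the half-line -/

theorem ktp_half (hktb : KtbStatement) (hktp : KtpStatement) {x x' ψ : ℝ} (hx : 0 < x)
    (hx' : 0 < x') (hψ : |ψ| < Real.pi) :
    IntegrableOn (fun τ : ℝ => Kit τ x * Kit τ x' * Real.cosh (ψ * τ)) (Set.Ioi 0) ∧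
    ∫ τ in Set.Ioi (0 : ℝ), Kit τ x * Kit τ x' * Real.cosh (ψ * τ)
      = Real.pi / 2 * Kit 0 (√(x ^ 2 + x' ^ 2 + 2 * x * x' * Real.cos ψ)) := by
  obtain ⟨hi, he⟩ := hktp x x' ψ hx hx' hψ
  have hev := hktb.2.1
  have hneg : ∀ τ : ℝ, Kit (-τ) x * Kit (-τ) x' * Real.exp (ψ * -τ)
      = Kit τ x * Kit τ x' * Real.exp (-(ψ * τ)) := by
    intro τ
    rw [hev τ x, hev τ x']
    congr 2
    ring
  have hi2 : Integrable (fun τ : ℝ => Kit τ x * Kit τ x' * Real.exp (-(ψ * τ))) := by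
    refine hi.comp_neg.congr (Eventually.of_forall fun τ => ?_)
    exact hneg τ
  have h1 : ∫ τ in Set.Iic (0 : ℝ), Kit τ x * Kit τ x' * Real.exp (ψ * τ)
      = ∫ τ in Set.Ioi (0 : ℝ), Kit τ x * Kit τ x' * Real.exp (-(ψ * τ)) := by
    have := integral_comp_neg_Ioi (0 : ℝ) (fun τ : ℝ => Kit τ x * Kit τ x' * Real.exp (ψ * τ))
    rw [neg_zero] at this
    rw [← this]
    refine setIntegral_congr_fun measurableSet_Ioi fun τ _ => ?_
    exact hneg τ
  have h2 := intervalIntegral.integral_Iic_add_Ioi (b := (0 : ℝ)) hi.integrableOn hi.integrableOn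
  rw [he, h1] at h2
  have hcosh : ∀ τ : ℝ, Kit τ x * Kit τ x' * Real.cosh (ψ * τ)
      = (1 / 2) * (Kit τ x * Kit τ x' * Real.exp (-(ψ * τ))
        + Kit τ x * Kit τ x' * Real.exp (ψ * τ)) := by
    intro τ
    rw [Real.cosh_eq]
    ring
  constructor
  · have h3 := ((hi2.add hi).const_mul (1 / 2)).integrableOn (s := Set.Ioi (0 : ℝ))
    refine h3.congr (Eventually.of_forall fun τ => ?_)
    exact (hcosh τ).symm
  · simp only [hcosh]
    rw [integral_const_mul, integral_add hi2.integrableOn hi.integrableOn, h2]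
    ring

/-! ### The result -/

theorem kes (hker : KerStatement) (hktb : KtbStatement) (hktp : KtpStatement)
    (hktl : KtlStatement) (huni : UniStatement) : KesStatement := by
  intro η1 η2 d κ r r' ψ ψ' h1 h2 h12 hκ hr hr' hψ1 hψ2 hψ'1 hψ'2
  obtain ⟨k1, k2, k3⟩ := hker η1 η2 d κ r r' ψ ψ' h1 h2 h12 hκ hr hr' hψ1 hψ2 hψ'1 hψ'2
  set x : ℂ := r * exp (ψ * I) with hx
  set y : ℂ := r' * exp (ψ' * I) with hy
  have hpi := Real.pi_pos
  have ix : ip (us η1 η2 1) x < hh d 1 := by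
    rw [hh_one, hx, ip_us_one]
    have : Real.sin (ψ - η1) < 0 := Real.sin_neg_of_neg_of_neg_pi_lt (by linarith) (by linarith)
    exact mul_neg_of_pos_of_neg hr this
  have iy : ip (us η1 η2 1) y < hh d 1 := by
    rw [hh_one, hy, ip_us_one]
    have : Real.sin (ψ' - η1) < 0 := Real.sin_neg_of_neg_of_neg_pi_lt (by linarith) (by linarith)
    exact mul_neg_of_pos_of_neg hr' this
  set z : ℂ := x - rl (us η1 η2 1) (hh d 1) y with hz
  have hz0 : z ≠ 0 := by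
    intro h0
    have h3 : x = rl (us η1 η2 1) (hh d 1) y := sub_eq_zero.1 h0
    have h4 := ip_rl (b := hh d 1) (norm_us η1 η2 1) y
    rw [← h3] at h4
    linarith
  have hzn : κ * ‖z‖ = √((κ * r) ^ 2 + (κ * r') ^ 2
      + 2 * (κ * r) * (κ * r') * Real.cos (Real.pi - 2 * η1 + ψ + ψ')) := by
    have e : (κ * r) ^ 2 + (κ * r') ^ 2
        + 2 * (κ * r) * (κ * r') * Real.cos (Real.pi - 2 * η1 + ψ + ψ') = (κ * ‖z‖) ^ 2 := by
      rw [mul_pow κ ‖z‖, hz, hh_one, hx, hy, norm_refl]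
      ring
    rw [e, Real.sqrt_sq (by positivity)]
  obtain ⟨l1, l2⟩ := hktl κ z hκ hz0
  have hψb : |Real.pi - 2 * η1 + ψ + ψ'| < Real.pi := by
    rw [abs_lt]
    constructor <;> linarith
  obtain ⟨p1, p2⟩ := ktp_half hktb hktp (mul_pos hκ hr) (mul_pos hκ hr') hψb
  have hid : ∀ t ∈ Set.Ioi (0 : ℝ), Real.exp (-(κ ^ 2 * t)) *
      kME (us η1 η2) (hh d) {1, 2} ∅ t x y = Real.exp (-(κ ^ 2 * t)) * G t z
      - Real.exp (-(κ ^ 2 * t)) * kME (us η1 η2) (hh d) {1} {2} t x y := by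
    intro t ht
    rw [kME_pair, pB_diff huni (us η1 η2) (hh d) 1 (norm_us η1 η2 1) ht ix iy]
    ring
  have hid2 : ∀ τ ∈ Set.Ioi (0 : ℝ), Kit τ (κ * r) * Kit τ (κ * r') *
      ((Real.sinh ((2 * (η1 + η2) - Real.pi) * τ) * Real.cosh ((η1 - η2 - ψ - ψ') * τ)
        + Real.sinh ((Real.pi - (η1 + η2)) * τ) * Real.cosh ((ψ - ψ') * τ))
        / Real.sinh ((η1 + η2) * τ))
      = Kit τ (κ * r) * Kit τ (κ * r') * Real.cosh ((Real.pi - 2 * η1 + ψ + ψ') * τ)
        - 2 * (Kit τ (κ * r) * Kit τ (κ * r') * Real.sinh (τ * (ψ + η2))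
        * Real.sinh (τ * (ψ' + η2)) * (Real.sinh ((Real.pi - (η1 + η2)) * τ)
          / Real.sinh ((η1 + η2) * τ))) := by
    intro τ hτ
    have hτ' : 0 < τ := hτ
    have hs : Real.sinh ((η1 + η2) * τ) ≠ 0 := by
      have : 0 < (η1 + η2) * τ := by positivity
      exact (Real.sinh_pos_iff.2 this).ne'
    rw [hyp_id η1 η2 ψ ψ' τ hs]
    ring
  refine ⟨?_, ?_, ?_⟩
  · refine (l1.sub k1).congr_fun (fun t ht => ?_) measurableSet_Ioi
    exact (hid t ht).symm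
  · refine (p1.sub (k2.const_mul 2)).congr_fun (fun τ hτ => ?_) measurableSet_Ioi
    exact (hid2 τ hτ).symm
  · rw [setIntegral_congr_fun measurableSet_Ioi hid, setIntegral_congr_fun measurableSet_Ioi hid2,
      integral_sub l1 k1, integral_sub p1 (k2.const_mul 2), integral_const_mul, k3, l2, p2, hzn]
    have hfin : ∀ a J : ℝ, a / (2 * Real.pi) - 2 / Real.pi ^ 2 * J
        = 1 / Real.pi ^ 2 * (Real.pi / 2 * a - 2 * J) := by
      intro a J
      field_simp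
    exact hfin _ _

end Pool.Agent.H60K.H15
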